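import Pool.Agent.H3.Bla3

open Filter Topology Metric Set Complex

namespace Pool.Agent.Results.MP_e1108f_an.WeakSep

open Pool.Agent.H3.Bla

/-- `g` is a bounded analytic function on the unit disc. -/
def IsHinf (g : ℂ → ℂ) : Prop :=
  DifferentiableOn ℂ g (Metric.ball 0 1) ∧ ∃ M : ℝ, ∀ z ∈ Metric.ball (0 : ℂ) 1, ‖g z‖ ≤ M

/-- The supremum norm over the unit disc. -/
noncomputable def supNorm (g : ℂ → ℂ) : ℝ := ⨆ z : Metric.ball (0 : ℂ) 1, ‖g z‖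

/-- A Blaschke sequence: distinct points of the disc with `∑ (1 - |z n|) < ∞`. -/
def IsBlaschkeSeq (z : ℕ → ℂ) : Prop :=
  Function.Injective z ∧ (∀ n, ‖z n‖ < 1) ∧ Summable fun n => 1 - ‖z n‖

/-- The pseudohyperbolic distances between different terms are bounded below. -/
def WeaklySeparated (z : ℕ → ℂ) : Prop :=
  ∃ δ : ℝ, 0 < δ ∧ ∀ m n, m ≠ n → δ ≤ ‖(z m - z n) / (1 - (starRingEnd ℂ) (z n) * z m)‖

/-- `g` is a minimal-norm interpolant of `f` on the sequence `z`. -/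
def IsMinInterp (f : ℂ → ℂ) (z : ℕ → ℂ) (g : ℂ → ℂ) : Prop :=
  IsHinf g ∧ (∀ n, g (z n) = f (z n)) ∧
    ∀ h, IsHinf h → (∀ n, h (z n) = f (z n)) → supNorm g ≤ supNorm h

/-- `B` is a Blaschke product on the disc; the nonzero zeros `a j` are indexed by a finite or
infinite set `J` of natural numbers, and repetitions are allowed. -/
def IsBlaschke (B : ℂ → ℂ) : Prop :=
  ∃ (θ : ℝ) (k : ℕ) (J : Set ℕ) (a : J → ℂ), (∀ j, a j ≠ 0 ∧ ‖a j‖ < 1) ∧
    (Summable fun j => 1 - ‖a j‖) ∧ ∀ z ∈ Metric.ball (0 : ℂ) 1,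
      B z = Complex.exp (θ * Complex.I) * z ^ k *
        ∏' j, (‖a j‖ : ℂ) / a j * ((a j - z) / (1 - (starRingEnd ℂ) (a j) * z))

theorem le_sup {g : ℂ → ℂ} (hg : IsHinf g) {z : ℂ} (hz : z ∈ ball (0 : ℂ) 1) :
    ‖g z‖ ≤ supNorm g := by
  obtain ⟨M, hM⟩ := hg.2
  exact le_ciSup (f := fun z : ball (0 : ℂ) 1 => ‖g z‖)
    ⟨M, by rintro _ ⟨w, rfl⟩; exact hM _ w.2⟩ ⟨z, hz⟩

theorem result : ∃ (f : ℂ → ℂ) (z : ℕ → ℂ), IsHinf f ∧ IsBlaschkeSeq z ∧ WeaklySeparated z ∧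
    Filter.Tendsto (fun n => f (z n)) Filter.atTop (nhds 0) ∧
    ∃ g, IsMinInterp f z g ∧ (∀ g', IsMinInterp f z g' → Set.EqOn g' g (Metric.ball 0 1)) ∧
      ¬ ∃ (c : ℂ) (B : ℂ → ℂ), IsBlaschke B ∧ ∀ w ∈ Metric.ball (0 : ℂ) 1, g w = c * B w := by
  have : Infinite {p : ℕ × ℤ // p.1 = 0 ∨ 16 ^ p.1 ≤ |p.2|} :=
    Infinite.of_injective (fun m : ℤ => ⟨(0, m), Or.inl rfl⟩) fun a b h => by simpa using h
  obtain ⟨e⟩ : Nonempty (ℕ ≃ {p : ℕ × ℤ // p.1 = 0 ∨ 16 ^ p.1 ≤ |p.2|}) := inferInstance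
  have hb : ∀ z ∈ ball (0 : ℂ) 1, ‖F z‖ ≤ 1 := fun z hz =>
    (F_leB (by simpa using hz)).trans (B_le (by simpa using hz))
  have hF : IsHinf F := ⟨F_diff, 1, hb⟩
  have hF1 : supNorm F ≤ 1 := Real.iSup_le (fun z => hb _ z.2) zero_le_one
  have hu : ∀ h, IsHinf h → (∀ n, h (ze (P (e n).1)) = F (ze (P (e n).1))) →
      supNorm h ≤ supNorm F → EqOn h F (ball 0 1) := fun h hh hv hs =>
    F_uniq hh.1 (fun z hz => (le_sup hh hz).trans (hs.trans hF1)) fun p hp => by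
      simpa using hv (e.symm ⟨p, hp⟩)
  have hinj : Function.Injective fun n => (e n).1 := Subtype.val_injective.comp e.injective
  refine ⟨F, fun n => ze (P (e n).1), hF, ⟨zP_inj.comp hinj, fun n => ze_lt (P_re _).1,
    by simpa only [Function.comp_def] using summ.comp_injective e.injective⟩,
    ⟨1 / 3, by norm_num, fun m n h => ?_⟩, ?_, F,
    ⟨hF, fun _ => rfl, fun h hh hv => ?_⟩, fun g hg => hu g hg.1 hg.2.1 (hg.2.2 F hF fun _ => rfl), ?_⟩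
  · rw [norm_div, norm_sub_rev, ← norm_div]
    exact sep (hinj.ne h.symm)
  · rw [← Nat.cofinite_eq_atTop]
    simpa only [Function.comp_def] using F_tend.comp e.injective.tendsto_cofinite
  · by_contra hlt
    have h1 := hu h hh hv (not_le.1 hlt).le
    exact hlt (le_of_eq (iSup_congr fun z => by rw [h1 z.2]))
  · rintro ⟨c, B, ⟨θ, k, J, a, ha, hs, hB⟩, h⟩
    refine F_not (fun j => (ha j).1) (fun j => (ha j).2) hs k (c * exp (θ * I)) fun z hz => ?_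
    rw [h z hz, hB z hz]
    simp only [bl, bfac, mob, mul_assoc]

end Pool.Agent.Results.MP_e1108f_an.WeakSep
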